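import Mathlib

/-!
# Task R2-10 (helper154, for helper500): the algebraic part
-/

set_option autoImplicit false

namespace Pool.Agent.H154.R2.W2

open NumberField IsDedekindDomain

theorem sum_aux {A : Type} [Field A] (η : A) (n : ℕ) :
    (1 - η) * (∑ k ∈ Finset.range n, ((k : A) + 1) * η ^ k) =
      (∑ k ∈ Finset.range n, η ^ k) - n * η ^ n := by
  induction n with
  | zero => simp
  | succ n ih =>
    rw [Finset.sum_range_succ, mul_add, ih, Finset.sum_range_succ]
    push_cast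
    ring

/-- `60` is divisible by `1 + ζ` -/
theorem sixty {A : Type} [Field A] [CharZero A] {ζ : A} (h : ζ ^ 60 = 1) (h1 : ζ ≠ -1) :
    ∃ T : A, IsIntegral ℤ T ∧ (1 + ζ) * T = 60 := by
  have hζ : IsIntegral ℤ ζ := IsIntegral.of_pow (n := 60) (by norm_num) (h ▸ isIntegral_one)
  have hη : IsIntegral ℤ (-ζ) := hζ.neg
  refine ⟨-(∑ k ∈ Finset.range 60, ((k : A) + 1) * (-ζ) ^ k), ?_, ?_⟩
  · apply IsIntegral.neg
    apply IsIntegral.sum
    intro k _
    refine IsIntegral.mul ?_ (hη.pow k)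
    have : ((k : A) + 1) = algebraMap ℤ A ((k : ℤ) + 1) := by simp
    rw [this]
    exact isIntegral_algebraMap
  · have h2 := sum_aux (-ζ) 60
    have h3 : (-ζ) ^ 60 = 1 := by rw [Even.neg_pow (by decide), h]
    have h4 : (∑ k ∈ Finset.range 60, (-ζ) ^ k) = 0 := by
      have h5 := mul_neg_geom_sum (-ζ) 60
      rw [h3, sub_self, mul_comm] at h5
      rcases mul_eq_zero.1 h5 with h6 | h6
      · exact h6
      · exfalso
        apply h1
        have : 1 + ζ = 0 := by simpa using h6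
        linear_combination this
    rw [h3, h4] at h2
    have h7 : (1 - -ζ) = 1 + ζ := by ring
    rw [h7] at h2
    rw [mul_neg, h2]
    norm_num

variable {E : Type} [Field E] [NumberField E]

omit [NumberField E] in
theorem mem_ring {x : E} (h : IsIntegral ℤ (algebraMap E (AlgebraicClosure E) x)) :
    ∃ c : 𝓞 E, algebraMap (𝓞 E) E c = x := by
  have h1 : IsIntegral ℤ x :=
    (isIntegral_algebraMap_iff (algebraMap E (AlgebraicClosure E)).injective).1 h
  exact ⟨⟨x, h1⟩, rfl⟩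

/-- the equation gives a divisor `c` of `3600` with `c p = a ^ 2` -/
theorem divisor {a b : 𝓞 E} {p M : ℕ} (ha : a ≠ 0) (hb : b ^ M = 1) (hM : 0 < M) (hp : p ≠ 0)
    {ζ : AlgebraicClosure E} (hζ : ζ ^ 60 = 1)
    (h : algebraMap E (AlgebraicClosure E) a ^ 2 = (ζ + ζ⁻¹ + 2) *
      (algebraMap E (AlgebraicClosure E) b * (p : AlgebraicClosure E))) :
    ∃ c d : 𝓞 E, c * p = a ^ 2 ∧ c * d = 3600 := by
  set φ := algebraMap E (AlgebraicClosure E) with hφ
  have hinj : Function.Injective φ := φ.injective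
  have hζ0 : ζ ≠ 0 := by
    rintro rfl
    norm_num at hζ
  have hiζ : IsIntegral ℤ ζ := IsIntegral.of_pow (n := 60) (by norm_num) (hζ ▸ isIntegral_one)
  have hinv : ζ⁻¹ = ζ ^ 59 := by
    rw [inv_eq_iff_eq_inv]
    apply eq_inv_of_mul_eq_one_right
    rw [← pow_succ, hζ]
  have hib : IsIntegral ℤ (φ b) := (b.2.map (φ.toIntAlgHom) : _)
  have hp0 : (p : AlgebraicClosure E) ≠ 0 := by exact_mod_cast hp
  have hpE : (p : E) ≠ 0 := by exact_mod_cast hp
  have ha0 : φ a ≠ 0 := by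
    intro h0
    apply ha
    have h1 : (a : E) = 0 := hinj (by rw [h0, map_zero])
    exact RingOfIntegers.coe_eq_zero_iff.1 h1
  have hne : ζ ≠ -1 := by
    rintro rfl
    apply ha0
    have : φ a ^ 2 = 0 := by rw [h]; norm_num
    exact pow_eq_zero_iff (two_ne_zero) |>.1 this
  set γ : AlgebraicClosure E := (ζ + ζ⁻¹ + 2) * φ b with hγ
  have hiγ : IsIntegral ℤ γ := by
    rw [hγ, hinv]
    refine IsIntegral.mul (IsIntegral.add (hiζ.add (hiζ.pow 59)) ?_) hib
    have : (2 : AlgebraicClosure E) = algebraMap ℤ _ 2 := by simp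
    rw [this]
    exact isIntegral_algebraMap
  have hγp : γ * p = φ a ^ 2 := by rw [h, hγ]; ring
  have hγE : φ ((a : E) ^ 2 / p) = γ := by
    rw [map_div₀, map_pow, map_natCast, ← hγp]
    field_simp
  obtain ⟨c, hc⟩ := mem_ring (x := (a : E) ^ 2 / p) (by rw [← hφ, hγE]; exact hiγ)
  obtain ⟨T, hT, hT1⟩ := sixty hζ hne
  have hcγ : φ c = γ := by
    rw [← hγE]
    exact congrArg φ hc
  have hγ0 : γ ≠ 0 := by
    intro h0
    rw [h0, zero_mul] at hγp
    exact ha0 (pow_eq_zero_iff (two_ne_zero) |>.1 hγp.symm)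
  have hc0 : (c : E) ≠ 0 := by
    intro h0
    apply hγ0
    rw [← hcγ, h0, map_zero]
  have hbM : φ b * φ b ^ (M - 1) = 1 := by
    rw [← pow_succ', Nat.sub_add_cancel hM, ← map_pow]
    have : (b : E) ^ M = 1 := by
      have h1 := congrArg (algebraMap (𝓞 E) E) hb
      simpa using h1
    rw [this, map_one]
  have hδ : γ * (ζ * T ^ 2 * φ b ^ (M - 1)) = 3600 := by
    have h1 : (ζ + ζ⁻¹ + 2) * ζ = (1 + ζ) ^ 2 := by
      field_simp
      ring
    calc γ * (ζ * T ^ 2 * φ b ^ (M - 1)) =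
        ((ζ + ζ⁻¹ + 2) * ζ) * T ^ 2 * (φ b * φ b ^ (M - 1)) := by rw [hγ]; ring
      _ = ((1 + ζ) * T) ^ 2 := by rw [h1, hbM]; ring
      _ = 3600 := by rw [hT1]; norm_num
  have hdE : φ (3600 / (c : E)) = ζ * T ^ 2 * φ b ^ (M - 1) := by
    have h36 : φ 3600 = 3600 := map_ofNat φ 3600
    rw [map_div₀, hcγ, div_eq_iff hγ0, h36, ← hδ]
    ring
  obtain ⟨d, hd⟩ := mem_ring (x := 3600 / (c : E)) (by
    rw [← hφ, hdE]
    exact (hiζ.mul (hT.pow 2)).mul (hib.pow (M - 1)))
  refine ⟨c, d, ?_, ?_⟩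
  · apply RingOfIntegers.coe_injective
    rw [map_mul, map_natCast, map_pow, hc]
    exact div_mul_cancel₀ _ hpE
  · apply RingOfIntegers.coe_injective
    rw [map_mul, hd, map_ofNat]
    exact mul_div_cancel₀ _ hc0

end Pool.Agent.H154.R2.W2
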