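import Mathlib

/-!
# Task R2-10 (helper154, for helper500): places above
-/

set_option autoImplicit false

namespace Pool.Agent.H154.R2.W2

open NumberField IsDedekindDomain

section

variable {K : Type} [Field K] [NumberField K]

omit [NumberField K] in
theorem prime_of_nat (v : HeightOneSpectrum (𝓞 K)) (n : ℕ) :
    0 < n → (n : 𝓞 K) ∈ v.asIdeal → ∃ p : ℕ, p.Prime ∧ (p : 𝓞 K) ∈ v.asIdeal := by
  induction n using Nat.strong_induction_on with
  | _ n ih =>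
    intro hn hv
    by_cases h1 : n = 1
    · exfalso
      rw [h1, Nat.cast_one] at hv
      exact v.isPrime.ne_top ((Ideal.eq_top_iff_one _).2 hv)
    · obtain ⟨q, hq, m, rfl⟩ := Nat.exists_prime_and_dvd h1
      rw [Nat.cast_mul] at hv
      rcases v.isPrime.mem_or_mem hv with h | h
      · exact ⟨q, hq, h⟩
      · have hm : 0 < m := Nat.pos_of_ne_zero (by rintro rfl; simp at hn)
        refine ih m ?_ hm h
        calc m < q * m := by nlinarith [hq.two_le]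
          _ = q * m := rfl

theorem absNorm_ne_zero (v : HeightOneSpectrum (𝓞 K)) : Ideal.absNorm v.asIdeal ≠ 0 :=
  (Ideal.absNorm_ne_zero_iff _).2 (Ideal.finiteQuotientOfFreeOfNeBot _ v.ne_bot)

theorem exists_prime_mem (v : HeightOneSpectrum (𝓞 K)) :
    ∃ p : ℕ, p.Prime ∧ (p : 𝓞 K) ∈ v.asIdeal :=
  prime_of_nat v _ (Nat.pos_of_ne_zero (absNorm_ne_zero v)) (Ideal.absNorm_mem _)

/-- the characteristic divides the norm -/
theorem dvd_norm (v : HeightOneSpectrum (𝓞 K)) {p : ℕ} (hp : p.Prime)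
    (hv : (p : 𝓞 K) ∈ v.asIdeal) {n : ℕ} (hn : (n : 𝓞 K) ∈ v.asIdeal) : p ∣ n := by
  by_contra h
  have h1 : IsCoprime (p : ℤ) (n : ℤ) := Nat.isCoprime_iff_coprime.2 (hp.coprime_iff_not_dvd.2 h)
  obtain ⟨a, b, hab⟩ := h1
  apply v.isPrime.ne_top
  rw [Ideal.eq_top_iff_one]
  have h2 : (a : 𝓞 K) * (p : 𝓞 K) + (b : 𝓞 K) * (n : 𝓞 K) = 1 := by
    exact_mod_cast congrArg (Int.cast : ℤ → 𝓞 K) hab
  rw [← h2]
  exact add_mem (Ideal.mul_mem_left _ _ hv) (Ideal.mul_mem_left _ _ hn)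

variable {E : Type} [Field E] [NumberField E]

/-- a place of `E` above a place of `K` -/
theorem exists_above (f : 𝓞 K →+* 𝓞 E) (hf : Function.Injective f)
    (v : HeightOneSpectrum (𝓞 K)) {p : ℕ} (hp : p ≠ 0) (hpv : (p : 𝓞 K) ∈ v.asIdeal) :
    ∃ w : HeightOneSpectrum (𝓞 E), (p : 𝓞 E) ∈ w.asIdeal ∧ w.asIdeal.comap f = v.asIdeal := by
  let _ : Algebra (𝓞 K) (𝓞 E) := f.toAlgebra
  have _ : IsScalarTower ℤ (𝓞 K) (𝓞 E) := IsScalarTower.of_algebraMap_eq' (RingHom.ext_int _ _)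
  have _ : Algebra.IsIntegral (𝓞 K) (𝓞 E) := Algebra.IsIntegral.tower_top (R := ℤ)
  have hmax := v.isMaximal
  have hker : RingHom.ker (algebraMap (𝓞 K) (𝓞 E)) ≤ v.asIdeal := by
    intro x hx
    have h0 : f x = 0 := hx
    have : x = 0 := hf (by rw [h0, map_zero])
    rw [this]
    exact zero_mem _
  obtain ⟨Q, hQ, hQv⟩ := Ideal.exists_ideal_over_maximal_of_isIntegral v.asIdeal hker
  have hpQ : (p : 𝓞 E) ∈ Q := by
    have h1 : (p : 𝓞 K) ∈ Q.comap (algebraMap (𝓞 K) (𝓞 E)) := hQv ▸ hpv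
    simpa using h1
  exact ⟨⟨Q, hQ.isPrime, fun h0 => by
    rw [h0] at hpQ
    exact hp (by exact_mod_cast (Ideal.mem_bot.1 hpQ))⟩, hpQ, hQv⟩

/-- the norm downstairs is at most the norm upstairs -/
theorem norm_le (f : 𝓞 K →+* 𝓞 E) (v : HeightOneSpectrum (𝓞 K)) (w : HeightOneSpectrum (𝓞 E))
    (h : w.asIdeal.comap f = v.asIdeal) :
    Ideal.absNorm v.asIdeal ≤ Ideal.absNorm w.asIdeal := by
  have hfin : Finite (𝓞 E ⧸ w.asIdeal) := Ideal.finiteQuotientOfFreeOfNeBot _ w.ne_bot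
  have hinj : Function.Injective (Ideal.quotientMap w.asIdeal f (le_of_eq h.symm)) :=
    Ideal.quotientMap_injective' (le_of_eq h)
  have h1 := Nat.card_le_card_of_injective _ hinj
  exact h1

theorem norm_eq (f : 𝓞 K →+* 𝓞 E) (v : HeightOneSpectrum (𝓞 K)) (w : HeightOneSpectrum (𝓞 E))
    (h : w.asIdeal.comap f = v.asIdeal) {p : ℕ} (hp : p.Prime) (hv : (p : 𝓞 K) ∈ v.asIdeal)
    (hw : Ideal.absNorm w.asIdeal = p) : Ideal.absNorm v.asIdeal = p := by
  apply le_antisymm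
  · rw [← hw]
    exact norm_le f v w h
  · exact Nat.le_of_dvd (Nat.pos_of_ne_zero (absNorm_ne_zero v))
      (dvd_norm v hp hv (Ideal.absNorm_mem _))

end

end Pool.Agent.H154.R2.W2
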