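import Pool.Agent.H500.R2.Stm
import Pool.Agent.H154.R2.W2A
import Pool.Agent.H154.R2.W2B

/-!
# Task R2-10 (helper154, for helper500): weight two, the projectively finite case does not occur
-/

set_option autoImplicit false

namespace Pool.Agent.H154.R2.W2

open NumberField IsDedekindDomain
open Pool.Agent.H500.R2 Pool.Agent.H500.HC

theorem em_injective {K E : Type} [Field K] [NumberField K] [Field E] [NumberField E]
    (σ : K →+* E) : Function.Injective (RingOfIntegers.mapRingHom σ) := by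
  intro x y hxy
  apply RingOfIntegers.coe_injective
  apply σ.injective
  have h1 := congrArg (algebraMap (𝓞 E) E) hxy
  exact h1

theorem main : Pool.Agent.H500.R2.S_W2 := by
  intro K E _ _ _ _ hcard N M a b _ hM hinf hb
  by_contra hcon
  push Not at hcon
  have hpos : 0 < Fintype.card (K →+* E) := by
    rw [hcard]
    exact Module.finrank_pos
  obtain ⟨σ⟩ := Fintype.card_pos_iff.1 hpos
  obtain ⟨v, ⟨hvN, hsp, hav⟩, hv60⟩ := (hinf.sdiff
    (Pool.Agent.H500.Kum.fin_mem (x := (60 : 𝓞 K)) (by norm_num))).nonempty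
  have hv60' : ((60 : ℕ) : 𝓞 K) ∉ v.asIdeal := fun h => hv60 (by simpa using h)
  obtain ⟨p, hp, hpv⟩ := exists_prime_mem v
  obtain ⟨w, hpw, hwv⟩ := exists_above (RingOfIntegers.mapRingHom σ) (em_injective σ) v hp.ne_zero
    hpv
  obtain ⟨hw1, hw2⟩ := hsp p w hp hpv hpw
  have hnv := norm_eq (RingOfIntegers.mapRingHom σ) v w hwv hp hpv hw1
  obtain ⟨ζ, hζ, hz⟩ := hcon v hvN
  rw [hnv] at hz
  obtain ⟨c, d, hcp, hcd⟩ := divisor hav (hb v hvN) hM hp.ne_zero hζ hz
  have hwp := w.isPrime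
  have ha2 : a v ∈ w.asIdeal := by
    apply hwp.mem_of_pow_mem 2
    rw [← hcp]
    exact Ideal.mul_mem_left _ _ hpw
  have hc2 : c * (p : 𝓞 E) ∈ w.asIdeal ^ 2 := by
    rw [hcp]
    exact Ideal.pow_mem_pow ha2 2
  have hc : c ∈ w.asIdeal := by
    rcases Ideal.IsPrime.mul_mem_pow w.asIdeal hc2 with h | h
    · exact h
    · exact absurd h hw2
  have h3600 : ((3600 : ℕ) : 𝓞 E) ∈ w.asIdeal := by
    have : ((3600 : ℕ) : 𝓞 E) = c * d := by rw [hcd]; norm_num
    rw [this]
    exact Ideal.mul_mem_right _ _ hc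
  have hdvd := dvd_norm w hp hpw h3600
  have h60 : p ∣ 60 := by
    apply hp.dvd_of_dvd_pow (n := 2)
    norm_num
    exact hdvd
  apply hv60'
  obtain ⟨m, hm⟩ := h60
  rw [hm, Nat.cast_mul]
  exact Ideal.mul_mem_right _ _ hpv

end Pool.Agent.H154.R2.W2
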